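import Pool.Graph.R_seed8.Helper197.Core

/-!
Short connecting orbits and local unique continuation for integrals of natural systems.
-/

open Set Topology
open scoped RealInnerProductSpace

noncomputable section

namespace Pool.Agent.Helper92.SIW

open Pool.Agent.Helper197 Pool.Agent.Helper197.SI

/-- Two points near `x₀` are connected by an orbit of the energy surface which stays near `x₀`
(a version of the library's `local_connect` with a bound for the orbit). -/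
theorem local_connect_near {G : V → V →L[ℝ] V} {U : V → ℝ} {E : ℝ} {D : Set V}
    {v : V × V → V × V} {φ : ℝ → V × V → V × V} (hG : Met G) (hU : Pot U) (hD : Reg U E D)
    (hφ : HFlow G U E v φ) {x₀ : V} (hx₀ : x₀ ∈ D) (hx₁ : ‖x₀‖ = 1) {η : ℝ} (hη : 0 < η) :
    ∃ ρ > 0, ∀ x' x'' : V, ‖x'‖ = 1 → ‖x''‖ = 1 → dist x' x₀ < ρ → dist x'' x₀ < ρ → x' ≠ x'' →
      ∃ p' t, 0 ≤ t ∧ (∀ s ∈ Icc (0 : ℝ) t, dist (φ s (x', p')).1 x₀ < η) ∧
        (x', p') ∈ ES G U E D ∧ (φ t (x', p')).1 = x'' := by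
  have hx : x₀ ≠ 0 := hD.ne_zero x₀ hx₀
  have hE : U x₀ < E := hD.lt x₀ hx₀
  let z0 : (V × V) × ℝ := ((x₀, (0 : V)), (0 : ℝ))
  let f : ContDiffBump z0 := ⟨1 / 4, 1 / 2, by norm_num, by norm_num⟩
  let vh : (V × V) × ℝ → (V × V) × ℝ := fun z => f z • XE G U z
  have hdist : ∀ z : (V × V) × ℝ, dist z.1.1 x₀ ≤ dist z z0 := by
    intro z
    exact (le_max_left _ _).trans (le_max_left _ _)
  have hvs : ContDiff ℝ ((⊤ : ℕ∞) : WithTop ℕ∞) vh := by
    rw [contDiff_iff_contDiffAt]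
    intro z
    by_cases hz : z.1.1 = 0
    · have h1 : (1 / 2 : ℝ) < dist z z0 := by
        refine lt_of_lt_of_le ?_ (hdist z)
        rw [hz, dist_eq_norm, zero_sub, norm_neg, hx₁]
        norm_num
      have h2 : ∀ᶠ y in 𝓝 z, (1 / 2 : ℝ) < dist y z0 :=
        (continuous_id.dist continuous_const).continuousAt.eventually_const_lt h1
      have h3 : vh =ᶠ[𝓝 z] fun _ => 0 := by
        filter_upwards [h2] with y hy
        change f y • XE G U y = 0
        rw [f.zero_of_le_dist hy.le, zero_smul]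
      exact contDiffAt_const.congr_of_eventuallyEq h3
    · exact f.contDiffAt.smul (XE_smooth hG hU hz)
  have hvc : HasCompactSupport vh := f.hasCompactSupport.smul_right
  obtain ⟨Φ, hΦ0, hΦd, hΦa, ⟨L, hL, hlip⟩, hΦc, -⟩ :=
    exists_global_flow vh (hvs.of_le ENat.LEInfty.out) hvc
  have huniq := flow_unique vh (hvs.of_le ENat.LEInfty.out) hvc Φ hΦ0 hΦd
  -- equilibria
  have heq : ∀ x : V, x ≠ 0 → ∀ t, Φ t ((x, (0 : V)), (0 : ℝ)) = ((x, (0 : V)), (0 : ℝ)) := by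
    intro x hx t
    have h1 : vh ((x, (0 : V)), (0 : ℝ)) = 0 := by
      change f _ • XE G U ((x, (0 : V)), (0 : ℝ)) = 0
      rw [XE_zero hG hx, smul_zero]
    have h2 := huniq (fun _ => ((x, (0 : V)), (0 : ℝ))) (min 0 t) (max 0 t) (min_le_left _ _)
      (le_max_left _ _) (by
        intro s _
        change HasDerivWithinAt (fun _ => ((x, (0 : V)), (0 : ℝ))) (vh ((x, (0 : V)), (0 : ℝ))) _ _
        rw [h1]
        exact hasDerivWithinAt_const _ _ _) t ⟨min_le_right _ _, le_max_right _ _⟩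
    exact h2.symm
  have hfix : ∀ t, Φ t z0 = z0 := heq x₀ hx
  -- strict derivative
  have hvstrict : HasStrictFDerivAt vh (AE G U x₀) z0 := by
    refine (XE_strict hG hU hx).congr_of_eventuallyEq ?_
    filter_upwards [f.eventuallyEq_one] with z hz
    change XE G U z = f z • XE G U z
    rw [hz]
    simp
  have hΦs := strict_flow vh Φ z0 (AE G U x₀) (AE_cube hG hU hx) hvstrict hΦ0 hΦd L hL hlip hfix
  set B : (V × V) × ℝ →L[ℝ] (V × V) × ℝ := ContinuousLinearMap.id ℝ _ + AE G U x₀ +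
    (1 / 2 : ℝ) • (AE G U x₀).comp (AE G U x₀) with hB
  let S : V × V → (V × V) × ℝ := fun z => ((z.1, wp z), tau G U E z)
  have hS0 : S (x₀, (0 : V)) = z0 := by
    change ((x₀, wp (x₀, (0 : V))), tau G U E (x₀, (0 : V))) = ((x₀, (0 : V)), (0 : ℝ))
    rw [wp_zero, tau_zero]
  have hwps : HasStrictFDerivAt wp (ContinuousLinearMap.snd ℝ V V -
      ((innerSL ℝ x₀).comp (ContinuousLinearMap.snd ℝ V V)).smulRight x₀) (x₀, (0 : V)) :=
    (wp_smooth _).hasStrictFDerivAt' (wp_deriv x₀) (by simp)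
  have hSs := ((hasStrictFDerivAt_fst (𝕜 := ℝ) (p := (x₀, (0 : V)))).prodMk hwps).prodMk
    (tau_strict hG hU (E := E) hx hE)
  have hΦs' : HasStrictFDerivAt (Φ 1) B (S (x₀, (0 : V))) := by
    rw [hS0]; exact hΦs
  have hcomp := hΦs'.comp (x₀, (0 : V)) hSs
  have hF := hcomp.fst.fst
  let F : V × V → V := fun z => (Φ 1 (S z)).1.1
  let Psi : V × V → V × V := fun z => (z.1, F z + ⟪z.1, z.2⟫ • z.1)
  have hPsi := (hasStrictFDerivAt_fst (𝕜 := ℝ) (p := (x₀, (0 : V)))).prodMk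
    (hF.add (cc_deriv x₀))
  have hmap := hPsi.map_nhds_eq_of_surj (by
    rw [LinearMap.range_eq_top]
    rintro ⟨ξ, η⟩
    obtain ⟨ζ, hζ⟩ := endpoint_surj hG hx hx₁ (η - ξ)
    refine ⟨(ξ, ζ), ?_⟩
    have hY := Y0_fst hG hU hx
    have h1 : G x₀ (ζ - ⟪x₀, ζ⟫ • x₀) = G x₀ ζ := by
      rw [map_sub, map_smul, hG.radial x₀ hx, smul_zero, sub_zero]
    have h2 : (B ((ξ, ζ - ⟪x₀, ζ⟫ • x₀), (0 : ℝ))).1.1 = ξ + G x₀ ζ := by
      rw [hB]
      simp [AE_apply, h1]
    apply Prod.ext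
    · rfl
    · change (B ((ξ, ζ - ⟪x₀, ζ⟫ • x₀), (0 : ℝ))).1.1 + ⟪x₀, ζ⟫ • x₀ = η
      rw [h2, add_assoc]
      have h3 : G x₀ ζ + ⟪x₀, ζ⟫ • x₀ = η - ξ := hζ
      rw [h3]
      abel)
  have hPsi0 : Psi (x₀, (0 : V)) = (x₀, x₀) := by
    change (x₀, (Φ 1 (S (x₀, (0 : V)))).1.1 + ⟪x₀, (0 : V)⟫ • x₀) = (x₀, x₀)
    rw [hS0, hfix]
    simp [z0]
  have hmap' : Filter.map Psi (𝓝 (x₀, (0 : V))) = 𝓝 (x₀, x₀) := by
    rw [← hPsi0]
    exact hmap
  -- bound on `v`
  obtain ⟨C, hC⟩ := hφ.vsupp.exists_bound_of_continuous hφ.vsmooth.continuous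
  have hC0 : 0 ≤ C := (norm_nonneg _).trans (hC 0)
  have hspeed : ∀ z s, 0 ≤ s → dist (φ s z) z ≤ C * s := by
    intro z s hs
    have h1 := norm_image_sub_le_of_norm_deriv_le_segment' (f := fun s => φ s z)
      (f' := fun s => v (φ s z)) (a := 0) (b := s) (C := C)
      (fun r _ => (hφ.deriv z r).hasDerivWithinAt) (fun r _ => hC _) s ⟨hs, le_rfl⟩
    rw [hφ.zero, sub_zero] at h1
    rw [dist_eq_norm]
    exact h1
  -- the neighbourhood
  have hSc : ContinuousAt S (x₀, (0 : V)) := hSs.continuousAt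
  have hFc : ContinuousAt F (x₀, (0 : V)) := hF.continuousAt
  have hwc : ContinuousAt wp (x₀, (0 : V)) := hwps.continuousAt
  have htc : ContinuousAt (fun z => √(tau G U E z)) (x₀, (0 : V)) :=
    (tau_strict hG hU (E := E) hx hE).continuousAt.sqrt
  have hF0 : F (x₀, (0 : V)) = x₀ := by
    change (Φ 1 (S (x₀, (0 : V)))).1.1 = x₀
    rw [hS0, hfix]
  have e1 : ∀ᶠ z : V × V in 𝓝 (x₀, (0 : V)), z.1 ∈ D :=
    continuousAt_fst.eventually_mem (hD.isOpen.mem_nhds hx₀)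
  have hm0 : (0 : ℝ) < min (1 / 16) (η / 2) := lt_min (by norm_num) (by linarith)
  have e2 : ∀ᶠ z : V × V in 𝓝 (x₀, (0 : V)), dist z.1 x₀ < min (1 / 16) (η / 2) := by
    have h : ContinuousAt (fun z : V × V => dist z.1 x₀) (x₀, (0 : V)) :=
      continuousAt_fst.dist continuousAt_const
    exact h.eventually_lt_const (by simpa using hm0)
  have e3 : ∀ᶠ z : V × V in 𝓝 (x₀, (0 : V)), ‖wp z‖ < 1 / 16 := by
    have h : ContinuousAt (fun z : V × V => ‖wp z‖) (x₀, (0 : V)) := hwc.norm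
    exact h.eventually_lt_const (by simp [wp_zero])
  have e4 : ∀ᶠ z : V × V in 𝓝 (x₀, (0 : V)), C * √(tau G U E z) < min (1 / 16) (η / 2) := by
    have h : ContinuousAt (fun z : V × V => C * √(tau G U E z)) (x₀, (0 : V)) :=
      continuousAt_const.mul htc
    exact h.eventually_lt_const (by simpa [tau_zero] using hm0)
  have e5 : ∀ᶠ z : V × V in 𝓝 (x₀, (0 : V)), √(tau G U E z) < 1 / 4 :=
    htc.eventually_lt_const (by simp [tau_zero])
  have e6 : ∀ᶠ z : V × V in 𝓝 (x₀, (0 : V)), 1 / 2 < ⟪F z, z.1⟫ := by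
    have h : ContinuousAt (fun z : V × V => ⟪F z, z.1⟫) (x₀, (0 : V)) :=
      hFc.inner continuousAt_fst
    refine h.eventually_const_lt ?_
    change 1 / 2 < ⟪F (x₀, (0 : V)), x₀⟫
    rw [hF0, real_inner_self_eq_norm_sq, hx₁]
    norm_num
  have e7 : ∀ᶠ z : V × V in 𝓝 (x₀, (0 : V)), |⟪z.1, z.2⟫| < 1 / 2 := by
    have h : ContinuousAt (fun z : V × V => |⟪z.1, z.2⟫|) (x₀, (0 : V)) :=
      (continuousAt_fst.inner continuousAt_snd).abs
    exact h.eventually_lt_const (by simp)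
  have hO := ((((((e1.and e2).and e3).and e4).and e5).and e6).and e7)
  have hO2 := Filter.image_mem_map (m := Psi) hO
  rw [hmap', Metric.mem_nhds_iff] at hO2
  obtain ⟨ρ, hρ, hO2⟩ := hO2
  refine ⟨ρ, hρ, ?_⟩
  intro x' x'' hx'1 hx''1 hd' hd'' hne
  obtain ⟨z, ⟨⟨⟨⟨⟨⟨z1, z2'⟩, z3⟩, z4'⟩, z5⟩, z6⟩, z7⟩, hz⟩ :=
    hO2 (show (x', x'') ∈ Metric.ball (x₀, x₀) ρ from max_lt hd' hd'')
  have z2 : dist z.1 x₀ < 1 / 16 := z2'.trans_le (min_le_left _ _)
  have z4 : C * √(tau G U E z) < 1 / 16 := z4'.trans_le (min_le_left _ _)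
  have z2η : dist z.1 x₀ < η / 2 := z2'.trans_le (min_le_right _ _)
  have z4η : C * √(tau G U E z) < η / 2 := z4'.trans_le (min_le_right _ _)
  have hz1 : z.1 = x' := congrArg Prod.fst hz
  have hz2 : F z + ⟪z.1, z.2⟫ • z.1 = x'' := congrArg Prod.snd hz
  rw [hz1] at z1 z2 z6 z7 hz2 z2η
  have hx'0 : x' ≠ 0 := hD.ne_zero x' z1
  have hE' : 0 < E - U x' := sub_pos.mpr (hD.lt x' z1)
  set w := wp z with hw
  have hxw : ⟪x', w⟫ = 0 := by
    rw [hw, wp, hz1, inner_sub_right, inner_smul_right, real_inner_self_eq_norm_sq, hx'1]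
    ring
  -- the norm argument
  have hnorm : ‖F z‖ = 1 → F z = x'' := by
    intro hFn
    set c := ⟪x', z.2⟫ with hc
    have h1 : ‖x''‖ ^ 2 = ‖F z‖ ^ 2 + 2 * (c * ⟪F z, x'⟫) + c ^ 2 * ‖x'‖ ^ 2 := by
      rw [← hz2, norm_add_sq_real, inner_smul_right, norm_smul, mul_pow, Real.norm_eq_abs, sq_abs]
    rw [hx''1, hFn, hx'1] at h1
    have h2 : c * (2 * ⟪F z, x'⟫ + c) = 0 := by nlinarith
    have h3 : 2 * ⟪F z, x'⟫ + c ≠ 0 := by
      have := (abs_lt.mp z7).1
      intro h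
      linarith
    have h4 : c = 0 := by
      rcases mul_eq_zero.mp h2 with h | h
      · exact h
      · exact absurd h h3
    rw [← hz2, h4, zero_smul, add_zero]
  by_cases hw0 : w = 0
  · exfalso
    have hS1 : S z = ((x', (0 : V)), (0 : ℝ)) := by
      change ((z.1, wp z), tau G U E z) = _
      rw [tau, ← hw, hw0, hz1]
      simp
    have hFz : F z = x' := by
      change (Φ 1 (S z)).1.1 = x'
      rw [hS1, heq x' hx'0]
    have := hnorm (by rw [hFz, hx'1])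
    exact hne (hFz.symm.trans this)
  · have hpos : 0 < ⟪w, G x' w⟫ := by
      apply hG.pos x' w hx'0
      intro c hc
      rw [hc, inner_smul_right, real_inner_self_eq_norm_sq, hx'1] at hxw
      apply hw0
      have : c = 0 := by simpa using hxw
      rw [hc, this, zero_smul]
    have htau : tau G U E z = (1 / 2) * ⟪w, G x' w⟫ * (E - U x')⁻¹ := by
      rw [tau, ← hw, hz1]
    have htpos : 0 < tau G U E z := by
      rw [htau]
      have := inv_pos.mpr hE'
      positivity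
    set c := √(tau G U E z) with hc
    have hcpos : 0 < c := Real.sqrt_pos.mpr htpos
    have hc2 : c ^ 2 = tau G U E z := Real.sq_sqrt htpos.le
    have hES : (x', c⁻¹ • w) ∈ ES G U E D := by
      refine ⟨⟨hx'1, ?_⟩, z1, ?_⟩
      · change ⟪x', c⁻¹ • w⟫ = 0
        rw [inner_smul_right, hxw, mul_zero]
      · change (1 / 2) * ⟪c⁻¹ • w, G x' (c⁻¹ • w)⟫ + U x' = E
        rw [map_smul, inner_smul_left, inner_smul_right]
        have h1 : ⟪w, G x' w⟫ = 2 * c ^ 2 * (E - U x') := by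
          rw [hc2, htau]
          field_simp
        rw [h1]
        simp only [conj_trivial]
        field_simp
        ring
    refine ⟨c⁻¹ • w, c, hcpos.le, fun s hs => ?_, hES, ?_⟩
    · have h1 := hspeed (x', c⁻¹ • w) s hs.1
      have h2 : C * s ≤ C * c := mul_le_mul_of_nonneg_left hs.2 hC0
      have h3 : dist (φ s (x', c⁻¹ • w)).1 x' ≤ C * c :=
        ((le_max_left _ _).trans h1).trans h2
      have h4 := dist_triangle (φ s (x', c⁻¹ • w)).1 x' x₀
      have h5 : C * c < η / 2 := z4η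
      linarith
    set γ : ℝ → (V × V) × ℝ := fun t =>
      (((φ (c * t) (x', c⁻¹ • w)).1, c • (φ (c * t) (x', c⁻¹ • w)).2), c ^ 2) with hγ
    have hγd : ∀ t, HasDerivAt γ (XE G U (γ t)) t := fun t =>
      scaled_curve hG hU hD hφ hES c t
    have hγ0 : γ 0 = S z := by
      simp only [hγ, mul_zero, hφ.zero]
      change ((x', c • c⁻¹ • w), c ^ 2) = ((z.1, wp z), tau G U E z)
      rw [smul_smul, mul_inv_cancel₀ hcpos.ne', one_smul, hc2, hz1]
    have hγball : ∀ t ∈ Icc (0 : ℝ) 1, f (γ t) = 1 := by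
      intro t ht
      apply f.one_of_mem_closedBall
      rw [Metric.mem_closedBall]
      have hct : 0 ≤ c * t := mul_nonneg hcpos.le ht.1
      have h1 := hspeed (x', c⁻¹ • w) (c * t) hct
      have h2 : C * (c * t) ≤ 1 / 16 := by
        have : C * (c * t) ≤ C * c :=
          mul_le_mul_of_nonneg_left (mul_le_of_le_one_right hcpos.le ht.2) hC0
        exact this.trans z4.le
      have h3 : dist (φ (c * t) (x', c⁻¹ • w)).1 x' ≤ 1 / 16 :=
        ((le_max_left _ _).trans h1).trans h2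
      have h4 : dist (φ (c * t) (x', c⁻¹ • w)).2 (c⁻¹ • w) ≤ 1 / 16 :=
        ((le_max_right _ _).trans h1).trans h2
      have h5 : dist (γ t).1.1 x₀ ≤ 1 / 4 := by
        have := dist_triangle (φ (c * t) (x', c⁻¹ • w)).1 x' x₀
        change dist (φ (c * t) (x', c⁻¹ • w)).1 x₀ ≤ 1 / 4
        linarith
      have h6 : dist (γ t).1.2 (0 : V) ≤ 1 / 4 :=
        lc_aux c w (φ (c * t) (x', c⁻¹ • w)).2 hcpos z5 z3 h4
      have h9 : dist (γ t).2 (0 : ℝ) ≤ 1 / 4 := by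
        change dist (c ^ 2) (0 : ℝ) ≤ 1 / 4
        rw [Real.dist_eq, sub_zero, abs_of_nonneg (by positivity)]
        exact (pow_le_pow_left₀ hcpos.le z5.le 2).trans (by norm_num)
      exact max_le (max_le h5 h6) h9
    have h10 := huniq γ 0 1 le_rfl zero_le_one (by
      intro t ht
      have h11 : vh (γ t) = XE G U (γ t) := by
        change f (γ t) • XE G U (γ t) = _
        rw [hγball t ht, one_smul]
      rw [h11]
      exact (hγd t).hasDerivWithinAt) 1 ⟨zero_le_one, le_rfl⟩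
    rw [hγ0] at h10
    have h12 : F z = (φ c (x', c⁻¹ • w)).1 := by
      change (Φ 1 (S z)).1.1 = _
      rw [← h10]
      simp only [hγ, mul_one]
    have h13 : ‖F z‖ = 1 := by
      rw [h12]
      exact (hφ.mem c _ hES.1).1
    rw [← h12]
    exact hnorm h13

/-- Propagation of zeros of a local integral to nearby points of configuration space. -/
theorem uc_step {G : V → V →L[ℝ] V} {U : V → ℝ} {E : ℝ} {R : Set V}
    {v : V × V → V × V} {φ : ℝ → V × V → V × V} (hG : Met G) (hU : Pot U) (hR : Reg U E R)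
    (hφ : HFlow G U E v φ) {B : V × V → ℝ} (hB : Basic B) {d : ℕ} (hBd : FPoly d R B)
    {O : Set V} (hO : IsOpen O) (hcomm : ∀ z : V × V, z.1 ∈ O → z.1 ∈ R → br B (Ham G U) z = 0)
    {x₀ : V} (hx₀ : x₀ ∈ R) (hx₁ : ‖x₀‖ = 1) (hx₀O : x₀ ∈ O) :
    ∃ ρ > 0, ∀ y : V, ‖y‖ = 1 → dist y x₀ < ρ →
      (∃ r > 0, ∀ x p : V, dist x y < r → (x, p) ∈ ES G U E R → B (x, p) = 0) →
      ∀ x p : V, dist x x₀ < ρ → (x, p) ∈ ES G U E R → B (x, p) = 0 := by
  obtain ⟨η, hη, hηO⟩ := Metric.isOpen_iff.1 hO x₀ hx₀O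
  obtain ⟨ρ, hρ, hcon⟩ := local_connect_near hG hU hR hφ hx₀ hx₁ hη
  refine ⟨ρ, hρ, ?_⟩
  rintro y hy1 hyρ ⟨r, hr, hvan⟩ x p hxρ hxp
  by_cases hyx : y = x
  · subst hyx
    exact hvan y p (by simpa using hr) hxp
  obtain ⟨p', t, ht0, horb, hES, hend⟩ := hcon y x hy1 (ES_norm hxp) hyρ hxρ hyx
  set z₁ := φ t (y, p') with hz₁
  have hz₁ES : z₁ ∈ ES G U E R := ES_invariant hG hU hR hφ _ hES t
  have hback : φ (-t) z₁ = (y, p') := by
    rw [hz₁, ← hφ.add, neg_add_cancel, hφ.zero]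
  -- the neighbourhood
  have hW1 : ∀ᶠ z in 𝓝 z₁, dist (φ (-t) z).1 y < r := by
    have hc : Continuous fun z => (φ (-t) z).1 :=
      (hφ.cont.comp (continuous_const.prodMk continuous_id)).fst
    have h1 : Metric.ball y r ∈ 𝓝 (φ (-t) z₁).1 := by
      rw [hback]
      exact Metric.ball_mem_nhds _ hr
    exact hc.continuousAt.eventually h1
  have hW2 : ∀ᶠ z in 𝓝 z₁, ∀ s ∈ Icc (0 : ℝ) t, (φ (-s) z).1 ∈ Metric.ball x₀ η := by
    refine isCompact_Icc.eventually_forall_of_forall_eventually ?_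
    intro s hs
    have hc : Continuous fun q : (V × V) × ℝ => (φ (-q.2) q.1).1 :=
      (hφ.cont.comp (continuous_snd.neg.prodMk continuous_fst)).fst
    refine hc.continuousAt.eventually_mem (Metric.isOpen_ball.mem_nhds ?_)
    show (φ (-s) z₁).1 ∈ Metric.ball x₀ η
    rw [hz₁, ← hφ.add, Metric.mem_ball]
    exact horb _ ⟨by linarith [hs.2], by linarith [hs.1]⟩
  have hzero : ∀ z ∈ ES G U E R, z ∈ {z | dist (φ (-t) z).1 y < r ∧
      ∀ s ∈ Icc (0 : ℝ) t, (φ (-s) z).1 ∈ Metric.ball x₀ η} → B z = 0 := by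
    rintro z hz ⟨h1, h2⟩
    have hinv := ES_invariant hG hU hR hφ z hz
    have hder : ∀ s ∈ Icc (0 : ℝ) t, HasDerivWithinAt (fun s => B (φ (-s) z)) 0 (Icc 0 t) s := by
      intro s hs
      have h3 : HasFDerivAt B (fderiv ℝ B (φ (-s) z)) (φ (-s) z) :=
        (hB.differentiableAt (N_Om (hinv (-s)).1)).hasFDerivAt
      have h4 : HasDerivAt (fun s => φ (-s) z) (-(v (φ (-s) z))) s := by
        have h5 := HasDerivAt.scomp (g₁ := fun s => φ s z) s (hφ.deriv z (-s)) (hasDerivAt_neg s)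
        rw [neg_one_smul] at h5
        exact h5
      have h5 := h3.comp_hasDerivAt s h4
      have h6 : fderiv ℝ B (φ (-s) z) (-(v (φ (-s) z))) = 0 := by
        rw [map_neg, hφ.v_eq (hinv (-s)).1 (ES_ham (hinv (-s))).le]
        have := hcomm _ (hηO (h2 s hs)) (ES_D (hinv (-s)))
        unfold br at this
        rw [this, neg_zero]
      rw [h6] at h5
      exact h5.hasDerivWithinAt
    have h7 : B (φ (-t) z) = B (φ (-0) z) := by
      rcases ht0.eq_or_lt with h0 | h0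
      · rw [← h0]
      · have h8 := constant_of_has_deriv_right_zero (f := fun s => B (φ (-s) z)) (a := 0) (b := t)
          (fun s hs => (hder s hs).continuousWithinAt)
          (fun s hs => (hder s ⟨hs.1, hs.2.le⟩).mono_of_mem_nhdsWithin
            (Icc_mem_nhdsGE_of_mem hs))
        exact h8 t ⟨ht0, le_rfl⟩
    rw [neg_zero, hφ.zero] at h7
    rw [← h7]
    exact hvan _ _ h1 (hinv (-t))
  obtain ⟨ρ', hρ', h9⟩ := ball_vanish hG hU hR hBd hz₁ES (hW1.and hW2) hzero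
  exact h9 x p (by rw [hend, dist_self]; exact hρ') hxp

/-- Unique continuation along a path of configuration space. -/
theorem uc_path {G : V → V →L[ℝ] V} {U : V → ℝ} {E : ℝ} {R : Set V}
    {v : V × V → V × V} {φ : ℝ → V × V → V × V} (hG : Met G) (hU : Pot U) (hR : Reg U E R)
    (hφ : HFlow G U E v φ) {B : V × V → ℝ} (hB : Basic B) {d : ℕ} (hBd : FPoly d R B)
    {O : Set V} (hO : IsOpen O) (hcomm : ∀ z : V × V, z.1 ∈ O → z.1 ∈ R → br B (Ham G U) z = 0)
    (γ : unitInterval → V) (hγ : Continuous γ) (hγ1 : ∀ s, ‖γ s‖ = 1) (hγR : ∀ s, γ s ∈ R)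
    (hγO : ∀ s, γ s ∈ O)
    (h0 : ∃ r > 0, ∀ x p : V, dist x (γ 0) < r → (x, p) ∈ ES G U E R → B (x, p) = 0) :
    ∀ p : V, (γ 1, p) ∈ ES G U E R → B (γ 1, p) = 0 := by
  set S : Set unitInterval := {s | ∃ r > 0, ∀ x p : V, dist x (γ s) < r →
    (x, p) ∈ ES G U E R → B (x, p) = 0} with hS
  have hopen : IsOpen S := by
    rw [isOpen_iff_mem_nhds]
    rintro s ⟨r, hr, h⟩
    have h1 : ∀ᶠ s' in 𝓝 s, dist (γ s') (γ s) < r / 2 :=
      hγ.continuousAt.eventually (Metric.ball_mem_nhds _ (half_pos hr))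
    filter_upwards [h1] with s' hs'
    refine ⟨r / 2, half_pos hr, fun x p hx hxp => h x p ?_ hxp⟩
    linarith [dist_triangle x (γ s') (γ s)]
  have hclosed : IsClosed S := by
    rw [← closure_subset_iff_isClosed]
    intro s hs
    obtain ⟨ρ, hρ, h1⟩ := uc_step hG hU hR hφ hB hBd hO hcomm (hγR s) (hγ1 s) (hγO s)
    have h2 : ∀ᶠ s' in 𝓝 s, dist (γ s') (γ s) < ρ :=
      hγ.continuousAt.eventually (Metric.ball_mem_nhds _ hρ)
    obtain ⟨s', hs', hs'S⟩ := mem_closure_iff_nhds.1 hs _ h2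
    exact ⟨ρ, hρ, h1 (γ s') (hγ1 s') hs' hs'S⟩
  have huniv : S = univ := IsClopen.eq_univ ⟨hclosed, hopen⟩ ⟨0, h0⟩
  obtain ⟨r, hr, h⟩ : (1 : unitInterval) ∈ S := by rw [huniv]; exact mem_univ _
  exact fun p hp => h _ p (by simpa using hr) hp

/-- A function polynomial in the momenta which vanishes at all large energies vanishes. -/
theorem zero_of_large_energy {G : V → V →L[ℝ] V} {U : V → ℝ} (hG : Met G)
    {B : V × V → ℝ} (hB : Basic B) {d : ℕ} (hBd : FPoly d {x | x ≠ 0} B) {x : V} (hx : ‖x‖ = 1)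
    (M : ℝ) (h : ∀ p : V, (x, p) ∈ N → M < Ham G U (x, p) → B (x, p) = 0) (p : V) :
    B (x, p) = 0 := by
  have hx0 := unit_ne_zero hx
  have hlines : ∀ e : V, e ≠ 0 → ⟪x, e⟫ = 0 → ∀ s : ℝ, B (x, s • e) = 0 := by
    intro e he hxe s
    obtain ⟨P, -, hP⟩ := hBd x hx0 0 e
    have hT := hG.pos' hx he hxe
    have hinf : P = 0 := by
      refine Polynomial.eq_zero_of_infinite_isRoot _ ((Ioi_infinite
        (1 + 2 * |M - U x| / ⟪e, G x e⟫)).mono fun s hs => ?_)
      have hs' : 1 + 2 * |M - U x| / ⟪e, G x e⟫ < s := hs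
      have hs1 : 1 < s := by
        have : 0 ≤ 2 * |M - U x| / ⟪e, G x e⟫ := by positivity
        linarith
      have h1 := hP s
      rw [zero_add] at h1
      simp only [Set.mem_ofPred_eq, Polynomial.IsRoot]
      rw [← h1]
      refine h _ ⟨hx, by rw [inner_smul_right, hxe, mul_zero]⟩ ?_
      have h2 : 2 * |M - U x| / ⟪e, G x e⟫ < s * s := by nlinarith
      rw [div_lt_iff₀ hT] at h2
      unfold Ham
      simp only [map_smul, inner_smul_left, inner_smul_right, conj_trivial]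
      have h3 := le_abs_self (M - U x)
      nlinarith
    have h1 := hP s
    rw [zero_add, hinf] at h1
    simpa using h1
  have hN : ∀ p : V, ⟪x, p⟫ = 0 → B (x, p) = 0 := by
    intro p hxp
    by_cases hp : p = 0
    · obtain ⟨e, he, hxe, -⟩ := exists_perp x x
      have := hlines e he hxe 0
      rwa [zero_smul, ← hp] at this
    · have := hlines p hp hxp 1
      rwa [one_smul] at this
  have h2 := hB.shift x p (-⟪x, p⟫) hx0
  rw [← h2]
  apply hN _
  simp only [inner_add_right, inner_smul_right, real_inner_self_eq_norm_sq, hx]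
  ring

/-- Local unique continuation for brackets of local integrals. -/
theorem uc_main {G : V → V →L[ℝ] V} {U : V → ℝ} (hG : Met G) (hU : Pot U)
    {B : V × V → ℝ} (hB : Basic B) {d : ℕ} (hBd : FPoly d {x | x ≠ 0} B)
    {O : Set V} (hO : IsOpen O) (hcomm : ∀ z : V × V, z.1 ∈ O → z.1 ≠ 0 → br B (Ham G U) z = 0)
    (γ : unitInterval → V) (hγ : Continuous γ) (hγ1 : ∀ s, ‖γ s‖ = 1)
    (hγO : ∀ s, γ s ∈ O)
    (h0 : ∃ r > 0, ∀ x p : V, dist x (γ 0) < r → B (x, p) = 0) :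
    ∀ p : V, B (γ 1, p) = 0 := by
  obtain ⟨xM, -, hmax⟩ := exists_max_unit hU
  refine zero_of_large_energy (U := U) hG hB hBd (hγ1 1) (U xM) fun p hp hE => ?_
  have hR := punctured_reg hU hmax hE
  obtain ⟨v, φ, hφ⟩ := exists_HFlow hG hU (Ham G U (γ 1, p))
  obtain ⟨r, hr, h1⟩ := h0
  exact uc_path hG hU hR hφ hB hBd hO (fun z h h' => hcomm z h h') γ hγ hγ1
    (fun s => unit_ne_zero (hγ1 s)) hγO ⟨r, hr, fun x p hx _ => h1 x p hx⟩ p
    ⟨hp, unit_ne_zero (hγ1 1), rfl⟩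

end Pool.Agent.Helper92.SIW
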