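import Pool.Graph.R_seed8.Helper197.S2Defs

/-!
Natural Hamiltonian systems over open subsets `W` of the sphere `S²` (that is, over arbitrary
surfaces of genus zero), and their integrals polynomial in the momenta.

The definitions of `S2`, `Tan`, `Cot`, `Chart`, `SmoothChart`, `dom`, `pt`, `frame`, `covector`,
`CotFun`, `rep`, `grad`, `pb` are those of `Pool.Graph.R_seed8.Helper197.S2Defs`.
-/

open Set Manifold Topology
open scoped ContDiff
open Pool.Agent.Helper197.S2Defs

noncomputable section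

namespace Pool.Agent.Helper92.SIW

/-- The set of the coordinate values, in the chart `φ`, of the points of `W`. -/
def domOn (W : Set S2) (φ : Chart) : Set R2 := {q | q ∈ dom φ ∧ pt φ q ∈ W}

/-- Smooth Riemannian metrics on the open subset `W` of `S²`: scalar products on the tangent spaces
at the points of `W` whose components in every smooth chart are smooth functions of the
coordinates. (The values outside `W` are irrelevant.) -/
structure MetricOn (W : Set S2) where
  inner : (x : S2) → Tan x → Cot x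
  symm : ∀ x ∈ W, ∀ v w, inner x v w = inner x w v
  pos : ∀ x ∈ W, ∀ v, v ≠ 0 → 0 < inner x v v
  smooth : ∀ φ, SmoothChart φ → ∀ i j,
    ContDiffOn ℝ ∞ (fun q => inner (pt φ q) (frame φ q i) (frame φ q j)) (domOn W φ)

/-- The natural Hamiltonian `½ |ξ|² + U(x)` over `W`. -/
def hamOn {W : Set S2} (g : MetricOn W) (U : S2 → ℝ) : CotFun := fun x ξ =>
  (1 / 2) * ξ (Function.invFun (g.inner x) ξ) + U x

/-- Over `W` the function `F` is polynomial in the momenta of degree at most `d`, with smooth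
coefficients. -/
def PolyMomOn (W : Set S2) (d : ℕ) (F : CotFun) : Prop :=
  ∀ φ, SmoothChart φ →
    ∃ c : ℕ → ℕ → R2 → ℝ, (∀ i j, ContDiffOn ℝ ∞ (c i j) (domOn W φ)) ∧
      ∀ q₁ q₂ : ℝ, !₂[q₁, q₂] ∈ domOn W φ → ∀ p₁ p₂ : ℝ, rep F φ q₁ q₂ p₁ p₂ =
        ∑ i ∈ Finset.range (d + 1), ∑ j ∈ Finset.range (d + 1 - i),
          c i j !₂[q₁, q₂] * p₁ ^ i * p₂ ^ j

/-- Over `W` the function `F` is an integral of the natural system `(g, U)`: `{H, F} = 0` in all
canonical coordinates. -/
def IntegralOn (W : Set S2) (g : MetricOn W) (U : S2 → ℝ) (F : CotFun) : Prop :=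
  ∀ φ, SmoothChart φ → ∀ q₁ q₂ : ℝ, !₂[q₁, q₂] ∈ domOn W φ → ∀ p₁ p₂ : ℝ,
    pb (rep (hamOn g U) φ) (rep F φ) q₁ q₂ p₁ p₂ = 0

/-- Three functions have linearly independent differentials at some point of `T*W`. -/
def IndepOn (W : Set S2) (F₁ F₂ F₃ : CotFun) : Prop :=
  ∃ φ, SmoothChart φ ∧ ∃ q₁ q₂ p₁ p₂ : ℝ, !₂[q₁, q₂] ∈ domOn W φ ∧
    LinearIndependent ℝ (![grad (rep F₁ φ) q₁ q₂ p₁ p₂, grad (rep F₂ φ) q₁ q₂ p₁ p₂,
      grad (rep F₃ φ) q₁ q₂ p₁ p₂] : Fin 3 → Fin 4 → ℝ)

/-- The natural system `(g, U)` over `W` has three integrals over `W`, polynomial in the momenta,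
which are functionally independent (at one point at least). -/
def SuperintegrableOn (W : Set S2) (g : MetricOn W) (U : S2 → ℝ) : Prop :=
  ∃ F₁ F₂ F₃ : CotFun,
    (IntegralOn W g U F₁ ∧ ∃ d, PolyMomOn W d F₁) ∧
    (IntegralOn W g U F₂ ∧ ∃ d, PolyMomOn W d F₂) ∧
    (IntegralOn W g U F₃ ∧ ∃ d, PolyMomOn W d F₃) ∧
    IndepOn W F₁ F₂ F₃

/-- `D` is a potential well in `W` whose rim consists of local maxima of the potential: a connected
open set whose closure is contained in `W`, `U < M` on `D`, and the boundary of `D` is nonempty and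
consists of local maxima of `U` with the value `M`. -/
structure Well (W : Set S2) (U : S2 → ℝ) (M : ℝ) (D : Set S2) : Prop where
  isOpen : IsOpen D
  conn : IsConnected D
  closure_subset : closure D ⊆ W
  lt : ∀ x ∈ D, U x < M
  rim_nonempty : (frontier D).Nonempty
  rim : ∀ x ∈ frontier D, U x = M ∧ IsLocalMax U x

end Pool.Agent.Helper92.SIW
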