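import Pool.Graph.R_seed8.Helper197.Bridge
import Pool.Agent.Helper92.SIW.Defs
import Pool.Agent.Helper92.SIW.Conn

/-!
Localisation: extension of a metric, a potential and of functions polynomial in the momenta from a
neighbourhood of a compact subset of an open set `W ⊆ S²` to the whole sphere.
-/

open Set Topology Manifold
open scoped ContDiff RealInnerProductSpace
open Pool.Agent.Helper197.S2Defs (S2 R2 Tan Cot Chart SmoothChart dom pt dchart dpt frame RMetric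
  CotFun natHam covector rep grad pb)
open Pool.Agent.Helper197
open Pool.Agent.Helper197.S2Bridge

noncomputable section

namespace Pool.Agent.Helper92.SIW

/-! ### the round metric -/

theorem dinc_injective (y : S2) : Function.Injective (dinc y) := by
  have h := injective_mvfderiv_subtypeVal_sphere (n := 2) y
  intro v w hvw
  exact h hvw

theorem dinc_sg {φ : Chart} (hφ : SmoothChart φ) {u : R2} (hu : u ∈ φ.target) (a : R2) :
    dinc (φ.symm u) (sg φ u a) = fderiv ℝ (psi φ) u a := by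
  rw [dinc_eq hφ hu]
  exact congrArg (fderiv ℝ (psi φ) u) (ta_sg hφ hu a)

/-- the round metric -/
def roundM : RMetric where
  inner x v := (innerSL ℝ (dinc x v)).comp (dinc x)
  symm x v w := by
    simp only [ContinuousLinearMap.comp_apply, innerSL_apply_apply]
    exact real_inner_comm _ _
  pos x v hv := by
    simp only [ContinuousLinearMap.comp_apply, innerSL_apply_apply]
    have h1 : dinc x v ≠ 0 := by
      intro h
      exact hv (dinc_injective x (by rw [h, map_zero]))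
    exact real_inner_self_pos.2 h1
  smooth φ hφ i j := by
    have hD : ContDiffOn ℝ ∞ (fderiv ℝ (psi φ)) φ.target :=
      (contDiffOn_psi hφ).fderiv_of_isOpen φ.open_target (by simp)
    have h1 : ContDiffOn ℝ ∞ (fun q => ⟪fderiv ℝ (psi φ) q (EuclideanSpace.single i 1),
        fderiv ℝ (psi φ) q (EuclideanSpace.single j 1)⟫) φ.target :=
      (hD.clm_apply contDiffOn_const).inner ℝ (hD.clm_apply contDiffOn_const)
    refine h1.congr fun q hq => ?_
    simp only [ContinuousLinearMap.comp_apply, innerSL_apply_apply]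
    rw [← dinc_sg hφ hq, ← dinc_sg hφ hq]
    rfl

/-! ### cut-off functions -/

/-- a cut-off function supported in the open set `W` -/
structure Cut (W : Set S2) (χ : S2 → ℝ) : Prop where
  isOpen : IsOpen W
  smooth : ContMDiff (𝓡 2) 𝓘(ℝ, ℝ) ∞ χ
  nonneg : ∀ x, 0 ≤ χ x
  le_one : ∀ x, χ x ≤ 1
  far : ∀ x, x ∉ W → ∀ᶠ y in 𝓝 x, χ y = 0

theorem Cut.zero {W : Set S2} {χ : S2 → ℝ} (h : Cut W χ) {x : S2} (hx : x ∉ W) : χ x = 0 :=
  (h.far x hx).self_of_nhds

theorem exists_cut {K W : Set S2} (hK : IsClosed K) (hW : IsOpen W) (hKW : K ⊆ W) :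
    ∃ χ, Cut W χ ∧ ∃ O, IsOpen O ∧ K ⊆ O ∧ O ⊆ W ∧ ∀ x ∈ O, χ x = 1 := by
  obtain ⟨f, h0, h1, hf⟩ := exists_contMDiffMap_zero_one_nhds_of_isClosed (𝓡 2) (n := ⊤)
    hW.isClosed_compl hK (disjoint_compl_left_iff_subset.2 hKW)
  obtain ⟨χ, hχ⟩ : ∃ χ : S2 → ℝ, χ = fun x => f x := ⟨_, rfl⟩
  have hsm : ContMDiff (𝓡 2) 𝓘(ℝ, ℝ) ∞ χ := by
    rw [hχ]
    exact f.contMDiff
  have h0' : ∀ x ∈ Wᶜ, ∀ᶠ y in 𝓝 x, χ y = 0 := by
    rw [hχ]
    exact mem_nhdsSet_iff_forall.1 h0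
  have h1' : ∀ x ∈ K, ∀ᶠ y in 𝓝 x, χ y = 1 := by
    rw [hχ]
    exact mem_nhdsSet_iff_forall.1 h1
  have hf' : ∀ x, χ x ∈ Icc (0 : ℝ) 1 := by
    rw [hχ]
    exact hf
  clear hχ h0 h1 hf f
  have hcut : Cut W χ :=
    { isOpen := hW
      smooth := hsm
      nonneg := fun x => (hf' x).1
      le_one := fun x => (hf' x).2
      far := h0' }
  have hint : ∀ x ∈ interior (χ ⁻¹' {1}), χ x = 1 := fun x hx =>
    interior_subset (s := χ ⁻¹' {1}) hx
  refine ⟨χ, hcut, interior (χ ⁻¹' {1}), isOpen_interior, ?_, ?_, hint⟩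
  · intro x hx
    exact mem_interior_iff_mem_nhds.2 (h1' x hx)
  · intro x hx
    by_contra hxW
    have h2 : χ x = 1 := hint x hx
    rw [hcut.zero hxW] at h2
    exact zero_ne_one h2

theorem isOpen_domOn {W : Set S2} (hW : IsOpen W) (φ : Chart) : IsOpen (domOn W φ) :=
  φ.symm.isOpen_inter_preimage hW

theorem Cut.contDiffOn_chart {W : Set S2} {χ : S2 → ℝ} (h : Cut W χ) {φ : Chart}
    (hφ : SmoothChart φ) : ContDiffOn ℝ ∞ (fun q => χ (φ.symm q)) φ.target := by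
  have h1 : ContMDiffOn (𝓡 2) (𝓡 2) ∞ φ.symm φ.target := contMDiffOn_symm_of_mem_maximalAtlas hφ
  exact contMDiffOn_iff_contDiffOn.1 (h.smooth.comp_contMDiffOn h1)

theorem Cut.contDiffOn_mul {W : Set S2} {χ : S2 → ℝ} (h : Cut W χ) {φ : Chart}
    (hφ : SmoothChart φ) {f : R2 → ℝ} (hf : ContDiffOn ℝ ∞ f (domOn W φ)) :
    ContDiffOn ℝ ∞ (fun q => χ (φ.symm q) * f q) φ.target := by
  intro q hq
  by_cases hqW : φ.symm q ∈ W
  · have h1 : ContDiffAt ℝ ∞ f q := hf.contDiffAt ((isOpen_domOn h.isOpen φ).mem_nhds ⟨hq, hqW⟩)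
    have h2 : ContDiffAt ℝ ∞ (fun q => χ (φ.symm q)) q :=
      (h.contDiffOn_chart hφ).contDiffAt (φ.open_target.mem_nhds hq)
    exact (h2.mul h1).contDiffWithinAt
  · have h1 : ContinuousAt φ.symm q := φ.continuousAt_symm hq
    have h2 : (fun q => χ (φ.symm q) * f q) =ᶠ[𝓝 q] fun _ => 0 := by
      filter_upwards [h1.eventually (h.far _ hqW)] with q' hq'
      rw [hq', zero_mul]
    exact (contDiffAt_const.congr_of_eventuallyEq h2).contDiffWithinAt

/-! ### extensions -/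

/-- extension of a metric -/
def extG {W : Set S2} {χ : S2 → ℝ} (h : Cut W χ) (g : MetricOn W) : RMetric where
  inner x v := χ x • g.inner x v + (1 - χ x) • roundM.inner x v
  symm x v w := by
    simp only [add_apply, smul_apply, smul_eq_mul]
    by_cases hx : x ∈ W
    · rw [g.symm x hx v w, roundM.symm x v w]
    · rw [h.zero hx, roundM.symm x v w, zero_mul, zero_mul]
  pos x v hv := by
    simp only [add_apply, smul_apply, smul_eq_mul]
    have h2 := roundM.pos x v hv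
    by_cases hx : x ∈ W
    · have h1 := g.pos x hx v hv
      rcases (h.nonneg x).eq_or_lt with h3 | h3
      · rw [← h3]
        simpa using h2
      · have h4 : 0 < χ x * g.inner x v v := mul_pos h3 h1
        have h5 : 0 ≤ (1 - χ x) * roundM.inner x v v :=
          mul_nonneg (by linarith [h.le_one x]) h2.le
        linarith
    · rw [h.zero hx]
      simpa using h2
  smooth φ hφ i j := by
    simp only [add_apply, smul_apply, smul_eq_mul]
    have h1 := h.contDiffOn_mul hφ (g.smooth φ hφ i j)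
    have h2 := roundM.smooth φ hφ i j
    exact h1.add ((contDiffOn_const.sub (h.contDiffOn_chart hφ)).mul h2)

/-- extension of a potential -/
def extU (χ U : S2 → ℝ) (M : ℝ) (x : S2) : ℝ := χ x * U x + (1 - χ x) * M

theorem extU_smooth {W : Set S2} {χ U : S2 → ℝ} (h : Cut W χ) (M : ℝ)
    (hU : ContMDiffOn (𝓡 2) 𝓘(ℝ, ℝ) ∞ U W) : ContMDiff (𝓡 2) 𝓘(ℝ, ℝ) ∞ (extU χ U M) := by
  intro x
  by_cases hx : x ∈ W
  · have h1 : ContMDiffAt (𝓡 2) 𝓘(ℝ, ℝ) ∞ U x := hU.contMDiffAt (h.isOpen.mem_nhds hx)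
    have h2 : ContMDiffAt (𝓡 2) 𝓘(ℝ, ℝ) ∞ χ x := h.smooth x
    exact (h2.mul h1).add ((contMDiffAt_const.sub h2).mul contMDiffAt_const)
  · have h2 : extU χ U M =ᶠ[𝓝 x] fun _ => M := by
      filter_upwards [h.far x hx] with y hy
      unfold extU
      rw [hy]
      ring
    exact contMDiffAt_const.congr_of_eventuallyEq h2

/-- extension of a function on the cotangent bundle -/
def extF (χ : S2 → ℝ) (F : CotFun) : CotFun := fun x ξ => χ x * F x ξ

theorem extF_poly {W : Set S2} {χ : S2 → ℝ} (h : Cut W χ) {d : ℕ} {F : CotFun}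
    (hF : PolyMomOn W d F) : PolyMomE d (extF χ F) := by
  intro φ hφ
  obtain ⟨c, hc, hr⟩ := hF φ hφ
  refine ⟨fun i j q => χ (φ.symm q) * c i j q, fun i j => h.contDiffOn_mul hφ (hc i j), ?_⟩
  intro q hq p
  have h1 : repE (extF χ F) φ (q, p) = χ (φ.symm q) * repE F φ (q, p) := rfl
  rw [h1]
  by_cases hqW : φ.symm q ∈ W
  · have h2 := hr (q 0) (q 1) (by rw [eta]; exact ⟨hq, hqW⟩) (p 0) (p 1)
    rw [rep_eq, eta, eta] at h2
    rw [h2, Finset.mul_sum]
    refine Finset.sum_congr rfl fun i _ => ?_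
    rw [Finset.mul_sum]
    refine Finset.sum_congr rfl fun j _ => ?_
    ring
  · simp [h.zero hqW]

/-! ### agreement where the cut-off function is one -/

theorem extG_inner {W : Set S2} {χ : S2 → ℝ} (h : Cut W χ) (g : MetricOn W) {x : S2}
    (hx : χ x = 1) : (extG h g).inner x = g.inner x := by
  funext v
  simp only [extG]
  rw [hx, one_smul, sub_self, zero_smul, add_zero]

theorem extU_eq {χ U : S2 → ℝ} {M : ℝ} {x : S2} (hx : χ x = 1) : extU χ U M x = U x := by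
  unfold extU
  rw [hx]
  ring

theorem natHam_ext {W : Set S2} {χ U : S2 → ℝ} (h : Cut W χ) (g : MetricOn W) (M : ℝ) {x : S2}
    (hx : χ x = 1) (ξ : Cot x) : natHam (extG h g) (extU χ U M) x ξ = hamOn g U x ξ := by
  unfold natHam hamOn
  rw [extG_inner h g hx, extU_eq hx]

theorem repE_ham_eq {W : Set S2} {χ U : S2 → ℝ} (h : Cut W χ) (g : MetricOn W) (M : ℝ)
    {O : Set S2} (hO : IsOpen O) (hO1 : ∀ x ∈ O, χ x = 1) {φ : Chart} {z : R2 × R2}
    (hz : z.1 ∈ φ.target) (hzO : φ.symm z.1 ∈ O) :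
    repE (natHam (extG h g) (extU χ U M)) φ =ᶠ[𝓝 z] repE (hamOn g U) φ := by
  have hev : ∀ᶠ w : R2 × R2 in 𝓝 z, w.1 ∈ domOn O φ :=
    ((isOpen_domOn hO φ).preimage continuous_fst).mem_nhds (show z.1 ∈ domOn O φ from ⟨hz, hzO⟩)
  filter_upwards [hev] with w hw
  exact natHam_ext h g M (hO1 _ hw.2) _

theorem repE_extF_eq {χ : S2 → ℝ} (F : CotFun) {O : Set S2} (hO : IsOpen O)
    (hO1 : ∀ x ∈ O, χ x = 1) {φ : Chart} {z : R2 × R2}
    (hz : z.1 ∈ φ.target) (hzO : φ.symm z.1 ∈ O) :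
    repE (extF χ F) φ =ᶠ[𝓝 z] repE F φ := by
  have hev : ∀ᶠ w : R2 × R2 in 𝓝 z, w.1 ∈ domOn O φ :=
    ((isOpen_domOn hO φ).preimage continuous_fst).mem_nhds (show z.1 ∈ domOn O φ from ⟨hz, hzO⟩)
  filter_upwards [hev] with w hw
  unfold repE extF
  rw [hO1 _ hw.2, one_mul]

theorem pbE_congr {f f' k k' : R2 × R2 → ℝ} {z : R2 × R2} (h1 : f =ᶠ[𝓝 z] f')
    (h2 : k =ᶠ[𝓝 z] k') : pbE f k z = pbE f' k' z := by
  unfold pbE
  rw [h1.fderiv_eq, h2.fderiv_eq]

theorem ext_integral {W : Set S2} {χ U : S2 → ℝ} (h : Cut W χ) {g : MetricOn W} {M : ℝ}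
    (hU : ContMDiffOn (𝓡 2) 𝓘(ℝ, ℝ) ∞ U W) {O : Set S2} (hO : IsOpen O) (hOW : O ⊆ W)
    (hO1 : ∀ x ∈ O, χ x = 1) {d : ℕ} {F : CotFun} (hF : PolyMomOn W d F)
    (hI : IntegralOn W g U F) {φ : Chart} (hφ : SmoothChart φ) {z : R2 × R2}
    (hz : z.1 ∈ φ.target) (hzO : φ.symm z.1 ∈ O) :
    pbE (repE (natHam (extG h g) (extU χ U M)) φ) (repE (extF χ F) φ) z = 0 := by
  have hz1 : (!₂[z.1 0, z.1 1], !₂[z.2 0, z.2 1]) = z := by
    rw [eta, eta]
  have e1 := repE_ham_eq (U := U) h g M hO hO1 hz hzO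
  have e2 := repE_extF_eq F hO hO1 hz hzO
  have d1 : DifferentiableAt ℝ (repE (hamOn g U) φ) z :=
    ((natHam_rep_smooth (extG h g) (extU_smooth h M hU) hφ hz).differentiableAt
      (by simp)).congr_of_eventuallyEq e1.symm
  have d2 : DifferentiableAt ℝ (repE F φ) z :=
    ((contDiffOn_rep (extF_poly h hF) hφ hz).differentiableAt
      (by simp)).congr_of_eventuallyEq e2.symm
  rw [pbE_congr e1 e2]
  have h1 := hI φ hφ (z.1 0) (z.1 1) (by rw [eta]; exact ⟨hz, hOW hzO⟩) (z.2 0) (z.2 1)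
  rw [pb_eqE (by rw [hz1]; exact d1) (by rw [hz1]; exact d2), hz1] at h1
  exact h1

theorem ext_hat_comm_chart {W : Set S2} {χ U : S2 → ℝ} (h : Cut W χ) {g : MetricOn W} {M : ℝ}
    (hU : ContMDiffOn (𝓡 2) 𝓘(ℝ, ℝ) ∞ U W) {O : Set S2} (hO : IsOpen O) (hOW : O ⊆ W)
    (hO1 : ∀ x ∈ O, χ x = 1) {d : ℕ} {F : CotFun} (hF : PolyMomOn W d F)
    (hI : IntegralOn W g U F) {φ : Chart} (hφ : SmoothChart φ) {z : V × V} (hzc : z.1 ∈ cone φ)
    (hzO : nrm z.1 ∈ O) :
    SI.br (hat (extF χ F)) (SI.Ham (Gm (extG h g)) (Um (extU χ U M))) z = 0 := by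
  have hzOm : z ∈ SI.Om := hzc.1
  have hU' : ContMDiff (𝓡 2) 𝓘(ℝ, ℝ) ∞ (extU χ U M) := extU_smooth h M hU
  have hpoly := extF_poly h hF
  have key := fun w (hw : w.1 ∈ φ.target) (hwO : φ.symm w.1 ∈ O) =>
    ext_integral (M := M) h hU hO hOW hO1 hF hI hφ (z := w) hw hwO
  generalize extG h g = g' at key ⊢
  generalize extU χ U M = U' at key hU' ⊢
  generalize extF χ F = F' at key hpoly ⊢
  have h1 : hat (natHam g' U') =ᶠ[𝓝 z] SI.Ham (Gm g') (Um U') := by
    filter_upwards [SI.isOpen_Om.mem_nhds hzOm] with z hz'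
    exact hat_natHam g' U' hz'
  have h2 : SI.br (hat F') (SI.Ham (Gm g') (Um U')) z = SI.br (hat F') (hat (natHam g' U')) z := by
    unfold SI.br SI.XF SI.gp SI.gx
    rw [h1.fderiv_eq]
  have hF' : DifferentiableAt ℝ (repE F' φ) (Th φ z) :=
    (contDiffOn_rep hpoly hφ (qc_mem hzc)).differentiableAt (by simp)
  have hH' : DifferentiableAt ℝ (repE (natHam g' U') φ) (Th φ z) :=
    (natHam_rep_smooth g' hU' hφ (w := Th φ z) (qc_mem hzc)).differentiableAt (by simp)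
  have hsymm : φ.symm (Th φ z).1 = nrm z.1 := φ.left_inv hzc.2
  have hzO' : φ.symm (Th φ z).1 ∈ O := by
    rw [hsymm]
    exact hzO
  rw [h2, br_hat hφ hzc hF' hH', pb_antisymm, key (Th φ z) (qc_mem hzc) hzO', neg_zero]

theorem ext_hat_comm {W : Set S2} {χ U : S2 → ℝ} (h : Cut W χ) {g : MetricOn W} {M : ℝ}
    (hU : ContMDiffOn (𝓡 2) 𝓘(ℝ, ℝ) ∞ U W) {O : Set S2} (hO : IsOpen O) (hOW : O ⊆ W)
    (hO1 : ∀ x ∈ O, χ x = 1) {d : ℕ} {F : CotFun} (hF : PolyMomOn W d F)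
    (hI : IntegralOn W g U F) {z : V × V} (hz : z.1 ≠ 0) (hzO : nrm z.1 ∈ O) :
    SI.br (hat (extF χ F)) (SI.Ham (Gm (extG h g)) (Um (extU χ U M))) z = 0 :=
  ext_hat_comm_chart h hU hO hOW hO1 hF hI (smoothChart_chartAt (nrm z.1)) (mem_cone_chartAt hz)
    hzO

theorem ext_hat_basic {W : Set S2} {χ : S2 → ℝ} (h : Cut W χ) {d : ℕ} {F : CotFun}
    (hF : PolyMomOn W d F) : SI.Basic (hat (extF χ F)) :=
  hat_basic fun _ hφ _ hz => contDiffOn_rep (extF_poly h hF) hφ hz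

/-- The bracket of the lifts, in a chart. -/
theorem ext_br {W : Set S2} {χ : S2 → ℝ} (h : Cut W χ) {O : Set S2} (hO : IsOpen O)
    (hO1 : ∀ x ∈ O, χ x = 1) {d d' : ℕ} {F K : CotFun}
    (hF : PolyMomOn W d F) (hK : PolyMomOn W d' K) {φ : Chart} (hφ : SmoothChart φ) {z : V × V}
    (hz : z.1 ∈ cone φ) (hzO : nrm z.1 ∈ O) :
    SI.br (hat (extF χ F)) (hat (extF χ K)) z = pbE (repE F φ) (repE K φ) (Th φ z) := by
  have hsymm : φ.symm (Th φ z).1 = nrm z.1 := φ.left_inv hz.2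
  rw [br_hat hφ hz
    ((contDiffOn_rep (extF_poly h hF) hφ (qc_mem hz)).differentiableAt (by simp))
    ((contDiffOn_rep (extF_poly h hK) hφ (qc_mem hz)).differentiableAt (by simp))]
  exact pbE_congr (repE_extF_eq F hO hO1 (z := Th φ z) (qc_mem hz) (by rw [hsymm]; exact hzO))
    (repE_extF_eq K hO hO1 (z := Th φ z) (qc_mem hz) (by rw [hsymm]; exact hzO))

end Pool.Agent.Helper92.SIW
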