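import Pool.Agent.Helper92.SIW.Defs

/-!
Every nonconstant continuous function on the sphere has a potential well whose rim consists of
maxima.
-/

open Set Topology Manifold
open Pool.Agent.Helper197.S2Defs (S2 R2)

noncomputable section

namespace Pool.Agent.Helper92.SIW

theorem S2_preconnected : PreconnectedSpace S2 := by
  have h : IsPreconnected (Metric.sphere (0 : EuclideanSpace ℝ (Fin 3)) 1) := by
    apply isPreconnected_sphere
    rw [← Module.finrank_eq_rank]
    simp only [finrank_euclideanSpace, Fintype.card_fin]
    norm_num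
  exact isPreconnected_iff_preconnectedSpace.1 h

theorem exists_well {U : S2 → ℝ} (hU : Continuous U) (hne : ∃ x y, U x ≠ U y) :
    ∃ (M : ℝ) (D : Set S2), Well univ U M D := by
  have hpre := S2_preconnected
  have hloc : LocallyPathConnectedSpace S2 := ChartedSpace.locallyPathConnectedSpace R2 S2
  obtain ⟨a, b, hab⟩ := hne
  obtain ⟨xM, -, hmax⟩ := (isCompact_univ (X := S2)).exists_isMaxOn ⟨a, mem_univ a⟩ hU.continuousOn
  have hmax' : ∀ y, U y ≤ U xM := fun y => hmax (mem_univ y)
  obtain ⟨x₁, hx₁⟩ : ∃ x, U x < U xM := by
    rcases lt_or_gt_of_ne hab with h | h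
    · exact ⟨a, h.trans_le (hmax' b)⟩
    · exact ⟨b, h.trans_le (hmax' a)⟩
  set S : Set S2 := {x | U x < U xM} with hS
  have hSo : IsOpen S := isOpen_lt hU continuous_const
  set D := connectedComponentIn S x₁ with hD
  have hDo : IsOpen D := hSo.connectedComponentIn
  have hDS : D ⊆ S := connectedComponentIn_subset S x₁
  have hx₁D : x₁ ∈ D := mem_connectedComponentIn hx₁
  refine ⟨U xM, D, hDo, isConnected_connectedComponentIn_iff.2 hx₁, subset_univ _,
    fun x hx => hDS hx, ?_, ?_⟩
  · by_contra hne
    rw [not_nonempty_iff_eq_empty, ← isClopen_iff_frontier_eq_empty] at hne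
    rcases isClopen_iff.1 hne with h | h
    · rw [h] at hx₁D
      exact hx₁D
    · have h1 : xM ∈ D := by
        rw [h]
        exact mem_univ _
      exact lt_irrefl (U xM) (show U xM < U xM from hDS h1)
  · intro x hx
    rw [hDo.frontier_eq] at hx
    have h1 : U x = U xM := by
      by_contra hne
      have hxS : x ∈ S := lt_of_le_of_ne (hmax' x) hne
      apply hx.2
      have h2 : IsPreconnected (insert x D) :=
        isPreconnected_connectedComponentIn.subset_closure (subset_insert x D)
          (insert_subset_iff.2 ⟨hx.1, subset_closure⟩)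
      exact h2.subset_connectedComponentIn (mem_insert_of_mem x hx₁D)
        (insert_subset_iff.2 ⟨hxS, hDS⟩) (mem_insert x D)
    refine ⟨h1, Filter.Eventually.of_forall fun y => ?_⟩
    rw [h1]
    exact hmax' y

end Pool.Agent.Helper92.SIW
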