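import Pool.Agent.Helper92.SIW.Ext

/-!
Local integrals commute over a potential well whose rim consists of local maxima, and hence
everywhere.
-/

open Set Topology Manifold
open scoped ContDiff RealInnerProductSpace
open Pool.Agent.Helper197.S2Defs (S2 R2 Tan Cot Chart SmoothChart dom pt dchart dpt frame RMetric
  CotFun natHam covector rep grad pb)
open Pool.Agent.Helper197
open Pool.Agent.Helper197.S2Bridge

noncomputable section

namespace Pool.Agent.Helper92.SIW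

/-- the cone over a subset of the sphere -/
def coneOver (O : Set S2) : Set V := {x | x ≠ 0 ∧ nrm x ∈ O}

theorem isOpen_coneOver {O : Set S2} (hO : IsOpen O) : IsOpen (coneOver O) := by
  have h1 : ContinuousOn nrm {x : V | x ≠ 0} := fun x hx => (continuousAt_nrm hx).continuousWithinAt
  exact h1.isOpen_inter_preimage isOpen_ne hO

theorem coe_mem_coneOver {O : Set S2} {y : S2} (hy : y ∈ O) : (y : V) ∈ coneOver O :=
  ⟨S2_ne y, by rw [nrm_of]; exact hy⟩

theorem smul_mem_coneOver {O : Set S2} {y : S2} (hy : y ∈ O) {r : ℝ} (hr : 0 < r) :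
    r • (y : V) ∈ coneOver O :=
  ⟨smul_ne_zero hr.ne' (S2_ne y), by rw [nrm_smul (S2_ne y) hr, nrm_of]; exact hy⟩

theorem isPreconnected_coneOver {O : Set S2} (hO : IsPreconnected O) :
    IsPreconnected (coneOver O) := by
  have h1 : IsPreconnected (Ioi (0 : ℝ) ×ˢ O) := isPreconnected_Ioi.prod hO
  have h2 : Continuous fun q : ℝ × S2 => q.1 • (q.2 : V) :=
    continuous_fst.smul (continuous_subtype_val.comp continuous_snd)
  have h3 := h1.image _ h2.continuousOn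
  have h4 : (fun q : ℝ × S2 => q.1 • (q.2 : V)) '' (Ioi (0 : ℝ) ×ˢ O) = coneOver O := by
    ext x
    constructor
    · rintro ⟨⟨r, y⟩, ⟨hr, hy⟩, rfl⟩
      exact smul_mem_coneOver hy hr
    · rintro ⟨hx, hxO⟩
      refine ⟨(‖x‖, nrm x), ⟨norm_pos_iff.2 hx, hxO⟩, ?_⟩
      simp only
      rw [nrm_coe hx, smul_smul, mul_inv_cancel₀ (norm_ne_zero_iff.2 hx), one_smul]
  rwa [h4] at h3

theorem extU_le {W : Set S2} {χ U : S2 → ℝ} (h : Cut W χ) {M : ℝ} (hM : ∀ x ∈ W, U x ≤ M)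
    (x : S2) : extU χ U M x ≤ M := by
  unfold extU
  by_cases hx : x ∈ W
  · have h1 := hM x hx
    have h2 := h.nonneg x
    nlinarith
  · rw [h.zero hx]
    linarith

/-- The cone over a well is a region of possible motion. -/
theorem well_reg {W : Set S2} {U : S2 → ℝ} {M : ℝ} {D : Set S2} (hD : Well W U M D)
    {W₁ : Set S2} {χ : S2 → ℝ} (h : Cut W₁ χ) (hM : ∀ x ∈ W₁, U x ≤ M) {O : Set S2}
    (hDO : closure D ⊆ O) (hO1 : ∀ x ∈ O, χ x = 1) :
    SI.Reg (Um (extU χ U M)) M (coneOver D) where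
  isOpen := isOpen_coneOver hD.isOpen
  nonempty := by
    obtain ⟨y, hy⟩ := hD.conn.nonempty
    exact ⟨y, coe_mem_coneOver hy⟩
  conn := isPreconnected_coneOver hD.conn.isPreconnected
  cone := by
    rintro x ⟨hx, hxD⟩ c hc
    exact ⟨smul_ne_zero hc.ne' hx, by rw [nrm_smul hx hc]; exact hxD⟩
  ne_zero := fun x hx => hx.1
  lt := by
    rintro x ⟨hx, hxD⟩
    unfold Um
    rw [extU_eq (hO1 _ (hDO (subset_closure hxD)))]
    exact hD.lt _ hxD
  bdry := by
    intro x hx hx0 hxD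
    have h1 : nrm x ∈ closure D := by
      have h2 : ContinuousWithinAt nrm (coneOver D) x := (continuousAt_nrm hx0).continuousWithinAt
      exact h2.mem_closure hx (fun y hy => hy.2)
    have h2 : nrm x ∉ D := fun h => hxD ⟨hx0, h⟩
    have h3 : nrm x ∈ frontier D := by
      rw [hD.isOpen.frontier_eq]
      exact ⟨h1, h2⟩
    refine ⟨?_, fun y hy => extU_le h hM _⟩
    unfold Um
    rw [extU_eq (hO1 _ (hDO h1))]
    exact (hD.rim _ h3).1

/-- Sections of the canonical coordinates. -/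
theorem nrm_Sg {φ : Chart} {w : R2 × R2} : nrm (Sg φ w).1 = φ.symm w.1 := nrm_of _

/-- Two local integrals commute over a well. -/
theorem well_zero {W : Set S2} (hW : IsOpen W) {g : MetricOn W} {U : S2 → ℝ}
    (hU : ContMDiffOn (𝓡 2) 𝓘(ℝ, ℝ) ∞ U W) {M : ℝ} {D : Set S2} (hD : Well W U M D)
    {d d' : ℕ} {F K : CotFun} (hF : PolyMomOn W d F) (hK : PolyMomOn W d' K)
    (hFI : IntegralOn W g U F) (hKI : IntegralOn W g U K) {φ : Chart} (hφ : SmoothChart φ)
    {w : R2 × R2} (hw : w.1 ∈ φ.target) (hwD : φ.symm w.1 ∈ D) :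
    pbE (repE F φ) (repE K φ) w = 0 := by
  -- the open set where the potential is at most M
  set W₁ : Set S2 := W ∩ interior {x | U x ≤ M} with hW₁
  have hW₁o : IsOpen W₁ := hW.inter isOpen_interior
  have hW₁W : W₁ ⊆ W := inter_subset_left
  have hM : ∀ x ∈ W₁, U x ≤ M := fun x hx => interior_subset (s := {x | U x ≤ M}) hx.2
  have hDW : closure D ⊆ W₁ := by
    intro x hx
    refine ⟨hD.closure_subset hx, ?_⟩
    by_cases hxD : x ∈ D
    · exact interior_maximal (fun y hy => (hD.lt y hy).le) hD.isOpen hxD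
    · have h3 : x ∈ frontier D := by
        rw [hD.isOpen.frontier_eq]
        exact ⟨hx, hxD⟩
      obtain ⟨h4, h5⟩ := hD.rim x h3
      rw [mem_interior_iff_mem_nhds]
      filter_upwards [h5] with y hy
      exact hy.trans h4.le
  obtain ⟨χ, h, O, hO, hDO, hOW, hO1⟩ := exists_cut isClosed_closure hW₁o hDW
  -- restrict everything to W₁
  have hU₁ : ContMDiffOn (𝓡 2) 𝓘(ℝ, ℝ) ∞ U W₁ := hU.mono hW₁W
  have hsub : ∀ φ : Chart, domOn W₁ φ ⊆ domOn W φ := fun φ q hq => ⟨hq.1, hW₁W hq.2⟩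
  let g₁ : MetricOn W₁ :=
    { inner := g.inner
      symm := fun x hx => g.symm x (hW₁W hx)
      pos := fun x hx => g.pos x (hW₁W hx)
      smooth := fun φ hφ i j => (g.smooth φ hφ i j).mono (hsub φ) }
  have hpoly : ∀ {d : ℕ} {F : CotFun}, PolyMomOn W d F → PolyMomOn W₁ d F := by
    intro d F hF φ hφ
    obtain ⟨c, hc, hr⟩ := hF φ hφ
    exact ⟨c, fun i j => (hc i j).mono (hsub φ), fun q₁ q₂ hq => hr q₁ q₂ (hsub φ hq)⟩
  have hint : ∀ {F : CotFun}, IntegralOn W g U F → IntegralOn W₁ g₁ U F := by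
    intro F hF φ hφ q₁ q₂ hq p₁ p₂
    exact hF φ hφ q₁ q₂ (hsub φ hq) p₁ p₂
  have hReg : SI.Reg (Um (extU χ U M)) M (coneOver D) := well_reg hD h hM hDO hO1
  have hobs : ∀ {d : ℕ} {F : CotFun}, PolyMomOn W d F → IntegralOn W g U F →
      SI.Obs (Gm (extG h g₁)) (Um (extU χ U M)) (coneOver D) (hat (extF χ F)) := by
    intro d F hF hI
    refine ⟨ext_hat_basic h (hpoly hF), ?_, d, ?_⟩
    · rintro z ⟨hz0, hzD⟩
      exact ext_hat_comm h hU₁ hO hOW hO1 (hpoly hF) (hint hI) hz0 (hDO (subset_closure hzD))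
    · rintro x ⟨hx, -⟩ p e
      exact hat_fpoly (extF_poly h (hpoly hF)) x hx p e
  obtain ⟨b, hb⟩ := hD.rim_nonempty
  have hb' : b ∈ closure D ∧ b ∉ D := by
    rw [hD.isOpen.frontier_eq] at hb
    exact hb
  have hcl : (b : V) ∈ closure (coneOver D) := by
    have h1 : (b : V) ∈ ((↑) : S2 → V) '' closure D := ⟨b, hb'.1, rfl⟩
    have h2 := image_closure_subset_closure_image continuous_subtype_val h1
    refine closure_mono ?_ h2
    rintro _ ⟨y, hy, rfl⟩
    exact coe_mem_coneOver hy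
  have hbD : (b : V) ∉ coneOver D := by
    rintro ⟨-, h2⟩
    rw [nrm_of] at h2
    exact hb'.2 h2
  have hzero := SI.br_zero_of_boundary (Gm_met (extG h g₁)) (Um_pot (extU_smooth h M hU₁)) hReg
    (S2_norm b) hcl hbD (hobs hF hFI) (hobs hK hKI) (Sg φ w)
    ⟨(Sg_mem hw).1, by rw [nrm_Sg]; exact hwD⟩
  rw [ext_br h hO hO1 (hpoly hF) (hpoly hK) hφ (Sg_mem hw)
    (by rw [nrm_Sg]; exact hDO (subset_closure hwD)), Th_Sg hφ hw] at hzero
  exact hzero

/-- Two local integrals commute everywhere. -/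
theorem pb_zero_on {W : Set S2} (hW : IsOpen W) (hWc : IsPreconnected W) {g : MetricOn W}
    {U : S2 → ℝ} (hU : ContMDiffOn (𝓡 2) 𝓘(ℝ, ℝ) ∞ U W) {M : ℝ} {D : Set S2}
    (hD : Well W U M D) {d d' : ℕ} {F K : CotFun} (hF : PolyMomOn W d F)
    (hK : PolyMomOn W d' K) (hFI : IntegralOn W g U F) (hKI : IntegralOn W g U K) {φ : Chart}
    (hφ : SmoothChart φ) {w : R2 × R2} (hw : w.1 ∈ φ.target) (hwW : φ.symm w.1 ∈ W) :
    pbE (repE F φ) (repE K φ) w = 0 := by
  obtain ⟨a, ha⟩ := hD.conn.nonempty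
  have haW : a ∈ W := hD.closure_subset (subset_closure ha)
  have hloc : LocallyPathConnectedSpace S2 := ChartedSpace.locallyPathConnectedSpace R2 S2
  have hpath : IsPathConnected W := hW.isConnected_iff_isPathConnected.1 ⟨⟨a, haW⟩, hWc⟩
  obtain ⟨γ, hγ⟩ := hpath.joinedIn a haW _ hwW
  have hKc : IsClosed (range γ) := (isCompact_range γ.continuous).isClosed
  have hKW : range γ ⊆ W := by
    rintro _ ⟨t, rfl⟩
    exact hγ t
  obtain ⟨χ, h, O, hO, hγO, hOW, hO1⟩ := exists_cut hKc hW hKW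
  have hFb := ext_hat_basic h hF
  have hKb := ext_hat_basic h hK
  have hG := Gm_met (extG h g)
  have hP := Um_pot (extU_smooth h M hU)
  have hB : SI.Basic (SI.br (hat (extF χ F)) (hat (extF χ K))) := hFb.br hKb
  have hBd : SI.FPoly (d + d') {x : V | x ≠ 0} (SI.br (hat (extF χ F)) (hat (extF χ K))) :=
    SI.FPoly.br isOpen_ne (fun x hx => hx) hFb hKb (hat_fpoly (extF_poly h hF))
      (hat_fpoly (extF_poly h hK))
  have hcomm : ∀ z : V × V, z.1 ∈ coneOver O → z.1 ≠ 0 →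
      SI.br (SI.br (hat (extF χ F)) (hat (extF χ K))) (SI.Ham (Gm (extG h g)) (Um (extU χ U M)))
        z = 0 := by
    intro z hz _
    refine SI.br_br_zero hFb hKb (SI.Basic.ham hG hP) (O := {z : V × V | z.1 ∈ coneOver O})
      ((isOpen_coneOver hO).preimage continuous_fst) (fun z hz => hz.1) ?_ ?_ z hz
    · rintro z ⟨hz0, hzO⟩
      exact ext_hat_comm h hU hO hOW hO1 hF hFI hz0 hzO
    · rintro z ⟨hz0, hzO⟩
      exact ext_hat_comm h hU hO hOW hO1 hK hKI hz0 hzO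
  have haO : a ∈ O := by
    have := hγO (mem_range_self 0)
    rwa [γ.source] at this
  have h0 : ∃ r > 0, ∀ x p : V, dist x ((γ 0 : S2) : V) < r →
      SI.br (hat (extF χ F)) (hat (extF χ K)) (x, p) = 0 := by
    have h1 : IsOpen (coneOver (D ∩ O)) := isOpen_coneOver (hD.isOpen.inter hO)
    have h2 : (a : V) ∈ coneOver (D ∩ O) := coe_mem_coneOver ⟨ha, haO⟩
    obtain ⟨r, hr, hball⟩ := Metric.isOpen_iff.1 h1 _ h2
    refine ⟨r, hr, fun x p hx => ?_⟩
    rw [γ.source] at hx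
    obtain ⟨hx0, hxD, hxO⟩ := hball hx
    have hxc : x ∈ cone (chartAt R2 (nrm x)) := mem_cone_chartAt hx0
    rw [ext_br h hO hO1 hF hK (smoothChart_chartAt (nrm x)) (z := (x, p)) hxc hxO]
    refine well_zero hW hU hD hF hK hFI hKI (smoothChart_chartAt (nrm x)) (qc_mem hxc) ?_
    have h3 : (chartAt R2 (nrm x)).symm (Th (chartAt R2 (nrm x)) (x, p)).1 = nrm x :=
      (chartAt R2 (nrm x)).left_inv hxc.2
    rw [h3]
    exact hxD
  have hfin := uc_main hG hP hB hBd (isOpen_coneOver hO) hcomm (fun t => ((γ t : S2) : V))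
    (continuous_subtype_val.comp γ.continuous) (fun t => S2_norm _)
    (fun t => coe_mem_coneOver (hγO (mem_range_self t))) h0 (Sg φ w).2
  have h4 : ((γ 1 : S2) : V) = (Sg φ w).1 := by
    rw [γ.target]
    rfl
  rw [h4] at hfin
  have hwO : nrm (Sg φ w).1 ∈ O := by
    rw [nrm_Sg]
    have := hγO (mem_range_self 1)
    rwa [γ.target] at this
  have h5 := ext_br h hO hO1 hF hK hφ (z := Sg φ w) (Sg_mem hw) hwO
  rw [Th_Sg hφ hw] at h5
  rw [← h5]
  exact hfin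

theorem contDiffAt_repOn {W : Set S2} (hW : IsOpen W) {d : ℕ} {F : CotFun}
    (hF : PolyMomOn W d F) {φ : Chart} (hφ : SmoothChart φ) {z : R2 × R2} (hz : z.1 ∈ φ.target)
    (hzW : φ.symm z.1 ∈ W) : ContDiffAt ℝ ∞ (repE F φ) z := by
  obtain ⟨χ, h, O, hO, hKO, -, hO1⟩ := exists_cut (K := {φ.symm z.1}) isClosed_singleton hW
    (singleton_subset_iff.2 hzW)
  have e := repE_extF_eq F hO hO1 hz (hKO rfl)
  exact (contDiffOn_rep (extF_poly h hF) hφ hz).congr_of_eventuallyEq e.symm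

theorem no_indep_on {W : Set S2} (hW : IsOpen W) (hWc : IsPreconnected W) (g : MetricOn W)
    {U : S2 → ℝ} (hU : ContMDiffOn (𝓡 2) 𝓘(ℝ, ℝ) ∞ U W) {M : ℝ} {D : Set S2}
    (hD : Well W U M D) (F₁ F₂ F₃ : CotFun)
    (h₁ : IntegralOn W g U F₁) (h₂ : IntegralOn W g U F₂) (h₃ : IntegralOn W g U F₃)
    (k₁ : ∃ d, PolyMomOn W d F₁) (k₂ : ∃ d, PolyMomOn W d F₂) (k₃ : ∃ d, PolyMomOn W d F₃) :
    ¬ IndepOn W F₁ F₂ F₃ := by
  rintro ⟨φ, hφ, q₁, q₂, p₁, p₂, ⟨hw, hwW⟩, hind⟩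
  obtain ⟨d₁, k₁⟩ := k₁
  obtain ⟨d₂, k₂⟩ := k₂
  obtain ⟨d₃, k₃⟩ := k₃
  have hdiff : ∀ {F : CotFun} {d : ℕ}, PolyMomOn W d F →
      DifferentiableAt ℝ (repE F φ) (!₂[q₁, q₂], !₂[p₁, p₂]) := fun hF =>
    (contDiffAt_repOn hW hF hφ (z := (!₂[q₁, q₂], !₂[p₁, p₂])) hw hwW).differentiableAt (by simp)
  rw [grad_eq (hdiff k₁), grad_eq (hdiff k₂), grad_eq (hdiff k₃)] at hind
  set w : R2 × R2 := (!₂[q₁, q₂], !₂[p₁, p₂]) with hwdef
  have hw' : w.1 ∈ φ.target := hw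
  have hwW' : φ.symm w.1 ∈ W := hwW
  have hind' : LinearIndependent ℝ ![fderiv ℝ (repE F₁ φ) w, fderiv ℝ (repE F₂ φ) w,
      fderiv ℝ (repE F₃ φ) w] := by
    refine LinearIndependent.of_comp ev4 ?_
    convert hind using 1
    funext i
    fin_cases i <;> rfl
  have key : ∀ {F K : CotFun} {d d' : ℕ}, PolyMomOn W d F → PolyMomOn W d' K →
      IntegralOn W g U F → IntegralOn W g U K → pbE (repE F φ) (repE K φ) w = 0 :=
    fun hF hK hFI hKI => pb_zero_on hW hWc hU hD hF hK hFI hKI hφ hw' hwW'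
  refine no_three hind' fun i j => ?_
  fin_cases i <;> fin_cases j <;>
    simp only [Fin.zero_eta, Fin.mk_one, Fin.reduceFinMk, Matrix.cons_val_zero,
      Matrix.cons_val_one, Matrix.cons_val, Jc_apply]
  · exact key k₁ k₁ h₁ h₁
  · exact key k₁ k₂ h₁ h₂
  · exact key k₁ k₃ h₁ h₃
  · exact key k₂ k₁ h₂ h₁
  · exact key k₂ k₂ h₂ h₂
  · exact key k₂ k₃ h₂ h₃
  · exact key k₃ k₁ h₃ h₁
  · exact key k₃ k₂ h₃ h₂
  · exact key k₃ k₃ h₃ h₃

/-- A natural system over `W` whose potential has a well with rim of local maxima is not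
superintegrable. -/
theorem not_superintegrableOn {W : Set S2} (hW : IsOpen W) (hWc : IsPreconnected W)
    (g : MetricOn W) {U : S2 → ℝ} (hU : ContMDiffOn (𝓡 2) 𝓘(ℝ, ℝ) ∞ U W) {M : ℝ} {D : Set S2}
    (hD : Well W U M D) : ¬ SuperintegrableOn W g U := by
  rintro ⟨F₁, F₂, F₃, h₁, h₂, h₃, hi⟩
  exact no_indep_on hW hWc g hU hD F₁ F₂ F₃ h₁.1 h₂.1 h₃.1 h₁.2 h₂.2 h₃.2 hi

end Pool.Agent.Helper92.SIW
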